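import Mathlib
import Pool.Agent.Helper66.DC.Goals4

/-!
Packet DC4-CNTW: windows and orders of vanishing (linear algebra).
-/

namespace Pool.Agent.Helper54.DC

open Finset

/-- The windows of length `q`, as functions supported on `[0, d + q)`. -/
def Kq (d : ℕ) {M : ℕ} (A : ℕ → Fin M → ℂ) (q : ℕ) : Submodule ℂ (ℕ → ℂ) where
  carrier := {κ | (∀ l < q, ∑ j ∈ range (d + 1), κ (j + l) • A j = 0) ∧ ∀ j, d + q ≤ j → κ j = 0}
  zero_mem' := by simp
  add_mem' := by
    rintro a b ⟨ha, ha'⟩ ⟨hb, hb'⟩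
    refine ⟨fun l hl => ?_, fun j hj => ?_⟩
    · simp only [Pi.add_apply, add_smul, sum_add_distrib, ha l hl, hb l hl, add_zero]
    · simp [ha' j hj, hb' j hj]
  smul_mem' := by
    rintro c a ⟨ha, ha'⟩
    refine ⟨fun l hl => ?_, fun j hj => ?_⟩
    · simp only [Pi.smul_apply, smul_assoc, ← smul_sum, ha l hl, smul_zero]
    · simp [ha' j hj]

/-- The vector `∑ κ_j A_(j+1)`. -/
def cm (d : ℕ) {M : ℕ} (A : ℕ → Fin M → ℂ) : (ℕ → ℂ) →ₗ[ℂ] (Fin M → ℂ) where
  toFun κ := ∑ j ∈ range d, κ j • A (j + 1)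
  map_add' a b := by simp only [Pi.add_apply, add_smul, sum_add_distrib]
  map_smul' c a := by simp only [Pi.smul_apply, smul_assoc, ← smul_sum, RingHom.id_apply]

lemma cm_apply (d : ℕ) {M : ℕ} (A : ℕ → Fin M → ℂ) (κ : ℕ → ℂ) :
    cm d A κ = ∑ j ∈ range d, κ j • A (j + 1) := rfl

lemma mem_Kq {d M : ℕ} {A : ℕ → Fin M → ℂ} {q : ℕ} {κ : ℕ → ℂ} :
    κ ∈ Kq d A q ↔ (∀ l < q, ∑ j ∈ range (d + 1), κ (j + l) • A j = 0) ∧
      ∀ j, d + q ≤ j → κ j = 0 := Iff.rfl

instance fin_Kq (d : ℕ) {M : ℕ} (A : ℕ → Fin M → ℂ) (q : ℕ) : Module.Finite ℂ (Kq d A q) := by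
  let f : Kq d A q →ₗ[ℂ] (Fin (d + q) → ℂ) :=
    (LinearMap.funLeft ℂ ℂ (fun i : Fin (d + q) => (i : ℕ))).comp (Kq d A q).subtype
  apply Module.Finite.of_injective f
  intro a b hab
  apply Subtype.ext
  funext j
  by_cases hj : j < d + q
  · exact congrFun hab ⟨j, hj⟩
  · rw [a.2.2 j (not_lt.1 hj), b.2.2 j (not_lt.1 hj)]

/-- Rank and nullity for the first window. -/
lemma rank_one (d : ℕ) {M : ℕ} (A : ℕ → Fin M → ℂ) :
    d + 1 ≤ Module.finrank ℂ (Submodule.span ℂ (Set.range fun j : Fin (d + 1) => A j)) +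
      Module.finrank ℂ (Kq d A 1) := by
  let φ : (Fin (d + 1) → ℂ) →ₗ[ℂ] (Fin M → ℂ) :=
    Fintype.linearCombination ℂ (fun j : Fin (d + 1) => A j)
  have hr : LinearMap.range φ = Submodule.span ℂ (Set.range fun j : Fin (d + 1) => A j) :=
    Fintype.range_linearCombination ℂ (fun j : Fin (d + 1) => A j)
  have h1 := LinearMap.finrank_range_add_finrank_ker φ
  rw [hr, Module.finrank_fin_fun] at h1
  have h2 : Module.finrank ℂ (LinearMap.ker φ) ≤ Module.finrank ℂ (Kq d A 1) := by
    let e : LinearMap.ker φ →ₗ[ℂ] Kq d A 1 :=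
      { toFun := fun x => ⟨fun j => if h : j < d + 1 then x.1 ⟨j, h⟩ else 0, by
          refine ⟨fun l hl => ?_, fun j hj => ?_⟩
          · obtain rfl : l = 0 := by omega
            have hx : φ x.1 = 0 := x.2
            rw [← hx, Fintype.linearCombination_apply, ← Fin.sum_univ_eq_sum_range
              (fun j => (if h : j + 0 < d + 1 then x.1 ⟨j + 0, h⟩ else 0) • A j)]
            refine Finset.sum_congr rfl fun j _ => ?_
            simp [j.2]
          · simp [show ¬ j < d + 1 by omega]⟩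
        map_add' := by
          intro a b
          apply Subtype.ext
          funext j
          show (if h : j < d + 1 then (a.1 + b.1) ⟨j, h⟩ else 0) =
            (if h : j < d + 1 then a.1 ⟨j, h⟩ else 0) + (if h : j < d + 1 then b.1 ⟨j, h⟩ else 0)
          by_cases h : j < d + 1
          · rw [dif_pos h, dif_pos h, dif_pos h]
            rfl
          · rw [dif_neg h, dif_neg h, dif_neg h, add_zero]
        map_smul' := by
          intro a b
          apply Subtype.ext
          funext j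
          show (if h : j < d + 1 then (a • b.1) ⟨j, h⟩ else 0) =
            a • (if h : j < d + 1 then b.1 ⟨j, h⟩ else 0)
          by_cases h : j < d + 1
          · rw [dif_pos h, dif_pos h]
            rfl
          · rw [dif_neg h, dif_neg h, smul_zero] }
    apply LinearMap.finrank_le_finrank_of_injective (f := e)
    intro a b hab
    apply Subtype.ext
    funext j
    have h3 : (if h : (j : ℕ) < d + 1 then a.1 ⟨j, h⟩ else 0) =
        (if h : (j : ℕ) < d + 1 then b.1 ⟨j, h⟩ else 0) :=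
      congrFun (congrArg Subtype.val hab) (j : ℕ)
    rw [dif_pos j.2, dif_pos j.2] at h3
    exact h3
  omega

/-- The recursion step. -/
lemma step (d : ℕ) {M : ℕ} (A : ℕ → Fin M → ℂ) (hA : A 0 ≠ 0) (F : Submodule ℂ (Fin M → ℂ))
    (q : ℕ) (hF0 : A 0 ∈ F) (hF : ∀ κ ∈ Kq d A q, cm d A κ ∈ F) :
    Module.finrank ℂ (Kq d A q) + 1 ≤ Module.finrank ℂ F + Module.finrank ℂ (Kq d A (q + 1)) := by
  let S : Submodule ℂ (Fin M → ℂ) := Submodule.span ℂ {A 0}
  have hS1 : Module.finrank ℂ S = 1 := finrank_span_singleton hA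
  have hSF : S ≤ F := by
    rw [Submodule.span_le]
    simpa using hF0
  let ψ : Kq d A q →ₗ[ℂ] (Fin M → ℂ) ⧸ S := S.mkQ.comp ((cm d A).comp (Kq d A q).subtype)
  have h1 := LinearMap.finrank_range_add_finrank_ker ψ
  have h2 : Module.finrank ℂ (LinearMap.range ψ) + 1 ≤ Module.finrank ℂ F := by
    have h3 : LinearMap.range ψ ≤ F.map S.mkQ := by
      rintro _ ⟨x, rfl⟩
      exact ⟨cm d A x.1, hF x.1 x.2, rfl⟩
    have h4 := Submodule.finrank_mono h3
    let χ : F →ₗ[ℂ] (Fin M → ℂ) ⧸ S := S.mkQ.comp F.subtype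
    have h5 := LinearMap.finrank_range_add_finrank_ker χ
    have h6 : LinearMap.range χ = F.map S.mkQ := by
      rw [LinearMap.range_comp, Submodule.range_subtype]
    have h7 : 1 ≤ Module.finrank ℂ (LinearMap.ker χ) := by
      rw [← hS1]
      let e : S →ₗ[ℂ] LinearMap.ker χ :=
        LinearMap.codRestrict _ (Submodule.inclusion hSF) (by
          intro x
          rw [LinearMap.mem_ker]
          show S.mkQ x.1 = 0
          rw [Submodule.mkQ_apply, Submodule.Quotient.mk_eq_zero]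
          exact x.2)
      apply LinearMap.finrank_le_finrank_of_injective (f := e)
      intro a b hab
      have h8 := congrArg (fun z : LinearMap.ker χ => (z.1 : Fin M → ℂ)) hab
      exact Subtype.ext h8
    rw [h6] at h5
    omega
  have h3 : Module.finrank ℂ (LinearMap.ker ψ) ≤ Module.finrank ℂ (Kq d A (q + 1)) := by
    let tl : (ℕ → ℂ) →ₗ[ℂ] (ℕ → ℂ) := LinearMap.funLeft ℂ ℂ (fun n : ℕ => n + 1)
    have h4 : (LinearMap.ker ψ).map (Kq d A q).subtype ≤ (Kq d A (q + 1)).map tl := by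
      rintro _ ⟨x, hx, rfl⟩
      have hx' : ψ x = 0 := hx
      have hx2 : cm d A x.1 ∈ S := by
        have : S.mkQ (cm d A x.1) = 0 := hx'
        rwa [Submodule.mkQ_apply, Submodule.Quotient.mk_eq_zero] at this
      obtain ⟨a, ha⟩ := Submodule.mem_span_singleton.1 hx2
      refine ⟨fun n => Nat.casesOn n (-a) (fun m => x.1 m), ⟨fun l hl => ?_, fun j hj => ?_⟩, ?_⟩
      · cases l with
        | zero =>
          rw [Finset.sum_range_succ']
          rw [cm_apply] at ha
          show ∑ k ∈ range d, x.1 k • A (k + 1) + (-a) • A 0 = 0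
          rw [← ha, neg_smul, add_neg_cancel]
        | succ l =>
          exact x.2.1 l (by omega)
      · cases j with
        | zero => omega
        | succ j => exact x.2.2 j (by omega)
      · rfl
    calc Module.finrank ℂ (LinearMap.ker ψ)
        = Module.finrank ℂ ((LinearMap.ker ψ).map (Kq d A q).subtype) :=
          (Submodule.finrank_map_subtype_eq _ _).symm
      _ ≤ Module.finrank ℂ ((Kq d A (q + 1)).map tl) := Submodule.finrank_mono h4
      _ ≤ _ := Submodule.finrank_map_le _ _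
  omega

/-- Abel summation. -/
lemma abel (f : ℕ → ℤ) (n : ℕ) :
    ∑ q ∈ range n, f (q + 2) =
      ∑ k ∈ range n, ((k : ℤ) + 1) * (f (k + 2) - f (k + 3)) + n * f (n + 2) := by
  induction n with
  | zero => simp
  | succ n ih =>
    rw [sum_range_succ, sum_range_succ, ih]
    push_cast
    ring

theorem h_cntw : Pool.Agent.Helper66.DC.Q_CNTW := by
  intro d M K A O hK hA hO hA0 h5 h6 h7
  set U := Submodule.span ℂ (Set.range fun j : Fin (d + 1) => A j) with hU
  have hAU : ∀ j < d + 1, A j ∈ U := fun j hj => Submodule.subset_span ⟨⟨j, hj⟩, rfl⟩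
  -- the space `C1`
  let C1 : Submodule ℂ (Fin M → ℂ) := (Kq d A 1).map (cm d A) ⊔ Submodule.span ℂ {A 0}
  have hC0 : A 0 ∈ C1 := Submodule.mem_sup_right (Submodule.mem_span_singleton_self _)
  have hC1 : C1 ≤ U := by
    refine sup_le ?_ ?_
    · rintro _ ⟨κ, _, rfl⟩
      rw [cm_apply]
      exact Submodule.sum_mem _ fun j hj => U.smul_mem _ (hAU _ (by
        have := mem_range.1 hj
        omega))
    · rw [Submodule.span_le]
      simpa using hAU 0 (by omega)
  let F : ℕ → Submodule ℂ (Fin M → ℂ) := fun k => C1 ⊓ O k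
  have hF0 : ∀ k, A 0 ∈ F k := fun k => ⟨hC0, hA0 k⟩
  have hFm : ∀ k, F (k + 1) ≤ F k := fun k => inf_le_inf_left _ (hO (Nat.le_succ k))
  -- images of windows
  have hcC : ∀ q, 1 ≤ q → ∀ κ ∈ Kq d A q, cm d A κ ∈ C1 := by
    intro q hq κ hκ
    refine Submodule.mem_sup_left ⟨fun j => if j < d + 1 then κ j else 0, ⟨fun l hl => ?_, ?_⟩, ?_⟩
    · obtain rfl : l = 0 := by omega
      rw [← hκ.1 0 (by omega)]
      refine Finset.sum_congr rfl fun j hj => ?_
      have := mem_range.1 hj
      simp [this]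
    · intro j hj
      simp [show ¬ j < d + 1 by omega]
    · rw [cm_apply, cm_apply]
      refine Finset.sum_congr rfl fun j hj => ?_
      have := mem_range.1 hj
      simp [show j < d + 1 by omega]
  have hcF : ∀ q, 1 ≤ q → ∀ κ ∈ Kq d A q, cm d A κ ∈ F (q + 1) := fun q hq κ hκ =>
    ⟨hcC q hq κ hκ, h6 q hq κ hκ.1⟩
  -- the chain
  have chain : ∀ n, Module.finrank ℂ (Kq d A 1) + n ≤
      ∑ q ∈ range n, Module.finrank ℂ (F (q + 2)) + Module.finrank ℂ (Kq d A (n + 1)) := by
    intro n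
    induction n with
    | zero => simp
    | succ n ih =>
      have := step d A hA (F (n + 2)) (n + 1) (hF0 _) (hcF (n + 1) (by omega))
      rw [sum_range_succ]
      have e : n + 1 + 1 = n + 2 := rfl
      omega
  have hlast : Module.finrank ℂ (Kq d A K) = 0 := by
    have : Kq d A K = ⊥ := by
      rw [eq_bot_iff]
      intro κ hκ
      rw [Submodule.mem_bot]
      funext j
      by_cases hj : j < d + K
      · exact h7 κ hκ.1 j hj
      · exact hκ.2 j (not_lt.1 hj)
    rw [this]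
    simp
  have hFK : Module.finrank ℂ (F (K + 1)) = 1 := by
    have : F (K + 1) = Submodule.span ℂ {A 0} := by
      apply le_antisymm
      · rintro c ⟨hc1, hc2⟩
        obtain ⟨x, hx⟩ := h5 c hc2 (hC1 hc1)
        exact Submodule.mem_span_singleton.2 ⟨x, hx.symm⟩
      · rw [Submodule.span_le]
        simpa using hF0 (K + 1)
    rw [this, finrank_span_singleton hA]
  obtain ⟨n, rfl⟩ : ∃ n, K = n + 1 := ⟨K - 1, by omega⟩
  have hch := chain n
  rw [hlast] at hch
  have hab := abel (fun k => (Module.finrank ℂ (F k) : ℤ)) n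
  simp only [hFK] at hab
  have hD : (Module.finrank ℂ (Kq d A 1) : ℤ) ≤
      ∑ k ∈ range n, ((k : ℤ) + 1) *
        ((Module.finrank ℂ (F (k + 2)) : ℤ) - (Module.finrank ℂ (F (k + 3)) : ℤ)) := by
    have hch' : ((Module.finrank ℂ (Kq d A 1) : ℤ)) + n ≤
        ∑ q ∈ range n, (Module.finrank ℂ (F (q + 2)) : ℤ) := by
      have := hch
      zify at this
      simpa using this
    push_cast at hab
    linarith
  -- pigeonhole
  obtain ⟨k, hk, hk2⟩ : ∃ k ∈ range n, (Module.finrank ℂ (Kq d A 1) : ℤ) ≤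
      n * (((k : ℤ) + 1) *
        ((Module.finrank ℂ (F (k + 2)) : ℤ) - (Module.finrank ℂ (F (k + 3)) : ℤ))) := by
    by_contra hcon
    push Not at hcon
    have hne : (range n).Nonempty := ⟨0, mem_range.2 (by omega)⟩
    have h8 := Finset.sum_lt_sum_of_nonempty hne hcon
    rw [← Finset.mul_sum, Finset.sum_const, card_range, nsmul_eq_mul] at h8
    have h9 : (0 : ℤ) < n := by
      have : 0 < n := by omega
      exact_mod_cast this
    have := lt_of_mul_lt_mul_left h8 h9.le
    linarith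
  have hkn := mem_range.1 hk
  -- complement
  obtain ⟨G, hG1, hG2, hG3⟩ : ∃ G : Submodule ℂ (Fin M → ℂ), G ≤ F (k + 2) ∧ G ⊓ F (k + 3) = ⊥ ∧
      Module.finrank ℂ G + Module.finrank ℂ (F (k + 3)) = Module.finrank ℂ (F (k + 2)) := by
    obtain ⟨G', hG'⟩ := Submodule.exists_isCompl (F (k + 3))
    refine ⟨G' ⊓ F (k + 2), inf_le_right, ?_, ?_⟩
    · rw [eq_bot_iff]
      intro x hx
      have : x ∈ F (k + 3) ⊓ G' := ⟨hx.2, hx.1.1⟩
      rwa [hG'.inf_eq_bot] at this
    · have h10 := Submodule.finrank_sup_add_finrank_inf_eq (G' ⊓ F (k + 2)) (F (k + 3))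
      have h11 : (G' ⊓ F (k + 2)) ⊓ F (k + 3) = ⊥ := by
        rw [eq_bot_iff]
        intro x hx
        have : x ∈ F (k + 3) ⊓ G' := ⟨hx.2, hx.1.1⟩
        rwa [hG'.inf_eq_bot] at this
      have h12 : (G' ⊓ F (k + 2)) ⊔ F (k + 3) = F (k + 2) := by
        rw [sup_comm, ← sup_inf_assoc_of_le G' (hFm (k + 2)), hG'.sup_eq_top, top_inf_eq]
      rw [h11, h12] at h10
      simp at h10
      omega
  have hG4 : (Module.finrank ℂ G : ℤ) =
      (Module.finrank ℂ (F (k + 2)) : ℤ) - (Module.finrank ℂ (F (k + 3)) : ℤ) := by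
    rw [← hG3]
    push_cast
    ring
  -- vectors
  let b := Module.finBasis ℂ G
  have hb : ∀ s, ∃ κ ∈ Kq d A 1, ∃ x : ℂ, cm d A κ + x • A 0 = (b s : Fin M → ℂ) := by
    intro s
    have h10 : (b s : Fin M → ℂ) ∈ C1 := (hG1 (b s).2).1
    obtain ⟨y, hy, z, hz, hyz⟩ := Submodule.mem_sup.1 h10
    obtain ⟨κ, hκ, rfl⟩ := hy
    obtain ⟨x, rfl⟩ := Submodule.mem_span_singleton.1 hz
    exact ⟨κ, hκ, x, hyz⟩
  choose κ hκ x hx using hb
  refine ⟨k + 2, Module.finrank ℂ G, κ, by omega, by omega, fun s => ?_, fun s => ?_, ?_, ?_, ?_⟩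
  · simpa using (hκ s).1 0 (by omega)
  · rw [← cm_apply]
    have h10 : cm d A (κ s) = (b s : Fin M → ℂ) - x s • A 0 := by
      rw [← hx s]
      simp
    rw [h10]
    exact Submodule.sub_mem _ (hG1 (b s).2).2 (Submodule.smul_mem _ _ (hA0 _))
  · intro lam hlam
    have h10 : ∑ s, lam s • (b s : Fin M → ℂ) ∈ F (k + 3) := by
      have h11 : ∑ s, lam s • (b s : Fin M → ℂ) =
          ∑ s, lam s • cm d A (κ s) + (∑ s, lam s * x s) • A 0 := by
        rw [Finset.sum_smul, ← Finset.sum_add_distrib]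
        refine Finset.sum_congr rfl fun s _ => ?_
        rw [← hx s, smul_add, mul_smul]
      rw [h11]
      refine Submodule.add_mem _ ⟨?_, hlam⟩ (Submodule.smul_mem _ _ (hF0 _))
      exact Submodule.sum_mem _ fun s _ => C1.smul_mem _ (hcC 1 le_rfl _ (hκ s))
    have h11 : ∑ s, lam s • b s = 0 := by
      apply Subtype.ext
      have h12 : ((∑ s, lam s • b s : G) : Fin M → ℂ) = ∑ s, lam s • (b s : Fin M → ℂ) := by
        simp
      have h13 : ((∑ s, lam s • b s : G) : Fin M → ℂ) ∈ G ⊓ F (k + 3) :=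
        ⟨(∑ s, lam s • b s : G).2, by rw [h12]; exact h10⟩
      rw [hG2, Submodule.mem_bot] at h13
      exact h13
    funext s
    exact Fintype.linearIndependent_iff.1 b.linearIndependent lam h11 s
  · have h10 := rank_one d A
    rw [← hU] at h10
    have h11 : Module.finrank ℂ (Kq d A 1) ≤ n * ((k + 1) * Module.finrank ℂ G) := by
      rw [← hG4] at hk2
      exact_mod_cast hk2
    have e1 : (n + 1 - 1) * (k + 2 - 1) * Module.finrank ℂ G =
        n * ((k + 1) * Module.finrank ℂ G) := by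
      rw [Nat.add_sub_cancel, show k + 2 - 1 = k + 1 by omega]
      ring
    rw [e1]
    omega
  · have h10 : Module.finrank ℂ G + 1 ≤ Module.finrank ℂ (F (k + 2)) := by
      have h11 : 1 ≤ Module.finrank ℂ (F (k + 3)) := by
        rw [← finrank_span_singleton (K := ℂ) hA]
        apply Submodule.finrank_mono
        rw [Submodule.span_le]
        simpa using hF0 (k + 3)
      omega
    exact h10.trans (Submodule.finrank_mono (inf_le_left.trans hC1))

end Pool.Agent.Helper54.DC
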